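import Pool.Agent.H12.UCR.Stmts

set_option autoImplicit false

open MeasureTheory Filter Topology

namespace Pool.UCR

theorem ctf_thm : CTFS := by
  intro p j
  rw [continuous_iff_continuousAt]
  intro μ
  have h1 : Tendsto (fun ν : PP p => ν.1) (𝓝 μ) (𝓝 μ.1) := continuous_subtype_val.continuousAt
  have h2 := (ProbabilityMeasure.tendsto_iff_forall_integral_rclike_tendsto ℂ).1 h1
    (BoundedContinuousFunction.mkOfCompact (fourier (j : ℤ)))
  exact h2

end Pool.UCR
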