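import Pool.Agent.H12.UCR.Stmts4

set_option autoImplicit false

open MeasureTheory Filter Topology

namespace Pool.UCR

theorem phn_thm : PHNS := by
  intro s t h0 h1
  have hexp : ∀ r : ℝ, Complex.exp (2 * Real.pi * Complex.I * r) =
      (Real.cos (2 * Real.pi * r) : ℂ) + (Real.sin (2 * Real.pi * r) : ℂ) * Complex.I := by
    intro r
    have h : (2 * Real.pi * Complex.I * r : ℂ) = ((2 * Real.pi * r : ℝ) : ℂ) * Complex.I := by
      push_cast
      ring
    rw [h, Complex.exp_mul_I, ← Complex.ofReal_cos, ← Complex.ofReal_sin]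
  have hint : ∀ z : ℤ, Complex.exp (2 * Real.pi * Complex.I * (z : ℂ)) = 1 := by
    intro z
    have h : (2 * Real.pi * Complex.I * (z : ℂ) : ℂ) = (z : ℂ) * (2 * Real.pi * Complex.I) := by
      ring
    rw [h, Complex.exp_int_mul_two_pi_mul_I]
  have hsq : ‖ph s t‖ ^ 2 = 1 - 2 * s * (1 - s) * (1 - Real.cos (2 * Real.pi * t)) := by
    have hc := Real.sin_sq_add_cos_sq (2 * Real.pi * t)
    rw [← Complex.normSq_eq_norm_sq]
    unfold ph
    rw [hexp, Complex.normSq_apply]
    simp only [Complex.add_re, Complex.sub_re, Complex.one_re, Complex.ofReal_re, Complex.mul_re,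
      Complex.ofReal_im, Complex.I_re, Complex.I_im, Complex.add_im, Complex.sub_im,
      Complex.one_im, Complex.mul_im]
    linear_combination (s ^ 2) * hc
  refine ⟨hsq, ?_, ?_, ?_⟩
  · have h2 : ‖ph s t‖ ^ 2 ≤ 1 ^ 2 := by
      rw [hsq]
      have h3 := Real.cos_le_one (2 * Real.pi * t)
      have h4 : 0 ≤ 2 * s * (1 - s) * (1 - Real.cos (2 * Real.pi * t)) := by
        apply mul_nonneg
        · apply mul_nonneg
          · linarith
          · linarith
        · linarith
      linarith
    exact (abs_le_of_sq_le_sq' h2 zero_le_one).2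
  · intro z
    unfold ph
    have h2 : Complex.exp (2 * Real.pi * Complex.I * ((t + z : ℝ) : ℂ)) =
        Complex.exp (2 * Real.pi * Complex.I * t) := by
      have h : (2 * Real.pi * Complex.I * ((t + z : ℝ) : ℂ) : ℂ) =
          2 * Real.pi * Complex.I * t + 2 * Real.pi * Complex.I * (z : ℂ) := by
        push_cast
        ring
      rw [h, Complex.exp_add, hint, mul_one]
    rw [h2]
  · intro z
    unfold ph
    have h2 : Complex.exp (2 * Real.pi * Complex.I * (((z : ℤ) : ℝ) : ℂ)) = 1 := by
      rw [Complex.ofReal_intCast]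
      exact hint z
    rw [h2]
    ring

end Pool.UCR
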